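import Mathlib

set_option autoImplicit false

namespace Pool.Agent.Results.MP_0af3ab_al.LeftNotRight

universe u

/-- `x` lies in the associative center (nucleus) `N(R)` of the not necessarily associative ring `R`:
all associators `(x,a,b)`, `(a,x,b)`, `(a,b,x)` vanish. -/
def InN {R : Type u} [NonAssocRing R] (x : R) : Prop :=
  ∀ a b : R, (x * a) * b = x * (a * b) ∧ (a * x) * b = a * (x * b) ∧ (a * b) * x = a * (b * x)

/-- `R` is left `N`-essential: `N(R) r ∩ N(R) ≠ 0` for all nonzero `r`. -/
def LeftNEssential (R : Type u) [NonAssocRing R] : Prop :=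
  ∀ r : R, r ≠ 0 → ∃ n : R, InN n ∧ InN (n * r) ∧ n * r ≠ 0

/-- `R` is right `N`-essential: `r N(R) ∩ N(R) ≠ 0` for all nonzero `r`. -/
def RightNEssential (R : Type u) [NonAssocRing R] : Prop :=
  ∀ r : R, r ≠ 0 → ∃ n : R, InN n ∧ InN (r * n) ∧ r * n ≠ 0

/-- The underlying space of the four-dimensional algebra with basis `1, x, y, v` (coordinates
`0, 1, 2, 3`) in which `x v = y`, `v v = x` and all other products of two of the elements `x, y, v`
are zero. -/
def Alg (K : Type u) : Type u := Fin 4 → K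

theorem ext4 {K : Type u} {a b : Alg K} (h0 : a 0 = b 0) (h1 : a 1 = b 1) (h2 : a 2 = b 2)
    (h3 : a 3 = b 3) : a = b := by
  funext i
  fin_cases i
  · exact h0
  · exact h1
  · exact h2
  · exact h3

/-- The element with the given coordinates. -/
def Alg.mk {K : Type u} (a b c d : K) : Alg K := ![a, b, c, d]

@[simp] theorem mk_0 {K : Type u} (a b c d : K) : Alg.mk a b c d 0 = a := rfl
@[simp] theorem mk_1 {K : Type u} (a b c d : K) : Alg.mk a b c d 1 = b := rfl
@[simp] theorem mk_2 {K : Type u} (a b c d : K) : Alg.mk a b c d 2 = c := rfl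
@[simp] theorem mk_3 {K : Type u} (a b c d : K) : Alg.mk a b c d 3 = d := rfl

variable {K : Type u} [Field K]

instance : AddCommGroup (Alg K) := inferInstanceAs (AddCommGroup (Fin 4 → K))

instance : Module K (Alg K) := inferInstanceAs (Module K (Fin 4 → K))

/-- The multiplication of `Alg K`. -/
instance : Mul (Alg K) := ⟨fun a b => .mk (a 0 * b 0) (a 0 * b 1 + a 1 * b 0 + a 3 * b 3)
  (a 0 * b 2 + a 2 * b 0 + a 1 * b 3) (a 0 * b 3 + a 3 * b 0)⟩

instance : One (Alg K) := ⟨.mk 1 0 0 0⟩

@[simp] theorem mul0 (a b : Alg K) : (a * b) 0 = a 0 * b 0 := rfl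
@[simp] theorem mul1 (a b : Alg K) : (a * b) 1 = a 0 * b 1 + a 1 * b 0 + a 3 * b 3 := rfl
@[simp] theorem mul2 (a b : Alg K) : (a * b) 2 = a 0 * b 2 + a 2 * b 0 + a 1 * b 3 := rfl
@[simp] theorem mul3 (a b : Alg K) : (a * b) 3 = a 0 * b 3 + a 3 * b 0 := rfl
@[simp] theorem one0 : (1 : Alg K) 0 = 1 := rfl
@[simp] theorem one1 : (1 : Alg K) 1 = 0 := rfl
@[simp] theorem one2 : (1 : Alg K) 2 = 0 := rfl
@[simp] theorem one3 : (1 : Alg K) 3 = 0 := rfl
@[simp] theorem add_ap (a b : Alg K) (i : Fin 4) : (a + b) i = a i + b i := rfl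
@[simp] theorem zero_ap (i : Fin 4) : (0 : Alg K) i = 0 := rfl
@[simp] theorem smul_ap (c : K) (a : Alg K) (i : Fin 4) : (c • a) i = c * a i := rfl

instance : NonAssocRing (Alg K) where
  __ := (inferInstance : AddCommGroup (Alg K))
  left_distrib a b c := by apply ext4 <;> simp <;> ring
  right_distrib a b c := by apply ext4 <;> simp <;> ring
  zero_mul a := by apply ext4 <;> simp
  mul_zero a := by apply ext4 <;> simp
  one_mul a := by apply ext4 <;> simp
  mul_one a := by apply ext4 <;> simp

instance : IsScalarTower K (Alg K) (Alg K) :=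
  ⟨fun c a b => by apply ext4 <;> simp [smul_eq_mul] <;> ring⟩

instance : SMulCommClass K (Alg K) (Alg K) :=
  ⟨fun c a b => by apply ext4 <;> simp [smul_eq_mul] <;> ring⟩

theorem inN_iff (a : Alg K) : InN a ↔ a 3 = 0 := by
  constructor
  · intro h
    have h1 := congrFun (h (.mk 0 0 0 1) (.mk 0 0 0 1)).1 2
    simp only [mul0, mul1, mul2, mul3, mk_0, mk_1, mk_2, mk_3] at h1
    simpa using h1
  · intro h x y
    refine ⟨?_, ?_, ?_⟩ <;> apply ext4 <;> simp [h] <;> ring

theorem left : LeftNEssential (Alg K) := by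
  intro r hr
  by_cases h3 : r 3 = 0
  · refine ⟨1, ?_, ?_, ?_⟩
    · rw [inN_iff]; rfl
    · rw [one_mul, inN_iff]; exact h3
    · rw [one_mul]; exact hr
  · refine ⟨.mk 0 1 0 0, ?_, ?_, ?_⟩
    · rw [inN_iff]; rfl
    · rw [inN_iff]; simp
    · intro h
      apply h3
      have := congrFun h 2
      simpa using this

theorem right : ¬ RightNEssential (Alg K) := by
  intro h
  obtain ⟨n, hn, h1, h2⟩ := h (.mk 0 0 0 1) (by
    intro h
    have := congrFun h 3
    simp at this)
  rw [inN_iff] at hn h1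
  apply h2
  apply ext4
  · simp
  · simp [hn]
  · simp
  · simpa using h1

/-- Over every field `K` there is a four-dimensional unital (not necessarily associative)
`K`-algebra which is left `N`-essential but not right `N`-essential. -/
theorem result (K : Type u) [Field K] :
    ∃ (R : Type u) (_ : NonAssocRing R) (_ : Module K R) (_ : IsScalarTower K R R)
      (_ : SMulCommClass K R R),
      Module.finrank K R = 4 ∧ LeftNEssential R ∧ ¬ RightNEssential R := by
  refine ⟨Alg K, inferInstance, inferInstance, inferInstance, inferInstance, ?_, left, right⟩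
  exact (Module.finrank_fin_fun K : Module.finrank K (Fin 4 → K) = 4)

end Pool.Agent.Results.MP_0af3ab_al.LeftNotRight
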